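import Pool.Agent.Lib_helper4.AAN.States
import Pool.Agent.Lib_helper11.AAN.Shift

/-!
# AllAlphaNoisy (MP_859019_mp): the state theorem from the inequality for strict pairs
-/

set_option autoImplicit false

open scoped BigOperators ComplexOrder Kronecker MatrixOrder Topology
open MeasureTheory Set Matrix Filter

namespace Pool.Agent.Lib_helper4.AAN

open Pool.Agent.RC Pool.Agent.Lib_helper98.Renyi Pool.Agent.Lib_helper98.GC34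
  Pool.Agent.Lib_helper11.AAN

variable {ι κ : Type} [Fintype ι] [DecidableEq ι] [Fintype κ] [DecidableEq κ]

theorem kp_pos {α : ℝ} (hα : 1 < α) : 0 < kp α := by
  have : 1 < (2 : ℝ) ^ (α - 1) := Real.one_lt_rpow (by norm_num) (by linarith)
  rw [kp]; linarith

theorem nn_pos {α : ℝ} (hα : 1 < α) : 0 < nn α := by
  rw [nn]; nlinarith

theorem hh_pos {α c : ℝ} (hα : 1 < α) (h0 : 0 ≤ c) (h1 : c ≤ 1) : 0 < hh α c := by
  have a := kp_pos hα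
  have b := nn_pos hα
  have e : hh α c = (1 - c) * nn α + c * kp α := by rw [hh]; ring
  rw [e]
  rcases eq_or_lt_of_le h0 with rfl | h
  · simpa using b
  · have := mul_pos h a
    have := mul_nonneg (sub_nonneg.2 h1) b.le
    linarith

theorem hh_one {α : ℝ} : hh α 1 = kp α := by rw [hh]; ring

/-- The inequality for `Gfun` of two states, from strict pairs. -/
theorem key_of_strict {α c₁ c₂ N H : ℝ} (h0 : 0 < α) (hc₁ : 0 ≤ c₁) (hc₂ : 0 ≤ c₂)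
    (hS : StrictN α c₁ c₂ N H)
    {σ₁ : Fin 2 → Matrix ι ι ℂ} {σ₂ : Fin 2 → Matrix κ κ ℂ}
    (h₁ : ∀ x, IsDensity (σ₁ x)) (h₂ : ∀ x, IsDensity (σ₂ x))
    (n₁ : Noise c₁ σ₁) (n₂ : Noise c₂ σ₂) :
    N * (Gfun α (Aop α σ₁) (Dop α σ₁) * Gfun α (Aop α σ₂) (Dop α σ₂)) ≤
      H * Gfun α (Aop α σ₁ ⊗ₖ Aop α σ₂) (Dop α σ₁ ⊗ₖ Dop α σ₂) := by
  have p₁ := psdPair_state h₁ h0
  have p₂ := psdPair_state h₂ h0
  rw [p₁.Gfun_eq h0, p₂.Gfun_eq h0, (p₁.kron p₂).Gfun_eq h0]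
  exact psd_of_strictN h0 hc₁ hc₂ hS p₁ (noise_sub h₁ h0 n₁) (noise_add h₁ h0 n₁) p₂
    (noise_sub h₂ h0 n₂) (noise_add h₂ h0 n₂)

/-- **States.** The bound with the factor `N κ / (h₁ h₂)`, and Q1 itself when `h₁ h₂ ≤ N κ`. -/
theorem states_of_strictN {α c₁ c₂ : ℝ} (hα : 1 < α) (hc₁ : 0 ≤ c₁) (hc₁' : c₁ ≤ 1)
    (hc₂ : 0 ≤ c₂) (hc₂' : c₂ ≤ 1)
    (hS : StrictN α c₁ c₂ (nn α) (hh α c₁ * hh α c₂))
    {σ₁ : Fin 2 → Matrix ι ι ℂ} {σ₂ : Fin 2 → Matrix κ κ ℂ}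
    (h₁ : ∀ x, IsDensity (σ₁ x)) (h₂ : ∀ x, IsDensity (σ₂ x))
    (n₁ : Noise c₁ σ₁) (n₂ : Noise c₂ σ₂) :
    nn α * kp α / (hh α c₁ * hh α c₂) *
        ((Kof α (condH α (cqState σ₁)) - 2 ^ (1 - α)) *
          (Kof α (condH α (cqState σ₂)) - 2 ^ (1 - α)) / (1 - 2 ^ (1 - α))) ≤
      Kof α (Hsum α σ₁ σ₂) - 2 ^ (1 - α) ∧
    (hh α c₁ * hh α c₂ ≤ nn α * kp α → Hsum α σ₁ σ₂ ≤ Fval α σ₁ σ₂) := by
  have h0 : 0 < α := by linarith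
  have key := key_of_strict h0 hc₁ hc₂ hS h₁ h₂ n₁ n₂
  have hH : 0 < hh α c₁ * hh α c₂ := mul_pos (hh_pos hα hc₁ hc₁') (hh_pos hα hc₂ hc₂')
  refine ⟨K_bound h₁ h₂ hα hH key, fun hle => ?_⟩
  refine Hsum_le_Fval h₁ h₂ h0 hα.ne' ?_
  have hn := nn_pos hα
  have hG : 0 ≤ Gfun α (Aop α σ₁ ⊗ₖ Aop α σ₂) (Dop α σ₁ ⊗ₖ Dop α σ₂) := by
    have := Gfun_nonneg hα.le (Aop_posSemidef (isDensity_sumState h₁ h₂) α)
      (A_add_D_posSemidef (isDensity_sumState h₁ h₂) h0)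
      (A_sub_D_posSemidef (isDensity_sumState h₁ h₂) h0)
    rwa [Aop_sumState h₁ h₂, Dop_sumState h₁ h₂] at this
  have h1 : nn α * (Gfun α (Aop α σ₁) (Dop α σ₁) * Gfun α (Aop α σ₂) (Dop α σ₂)) ≤
      nn α * (kp α * Gfun α (Aop α σ₁ ⊗ₖ Aop α σ₂) (Dop α σ₁ ⊗ₖ Dop α σ₂)) := by
    refine key.trans ?_
    have := mul_le_mul_of_nonneg_right hle hG
    linarith [this]
  exact le_of_mul_le_mul_left h1 hn

end Pool.Agent.Lib_helper4.AAN
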