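import Pool.Agent.Lib_helper98.RenyiTau

/-!
# Block (F) of AllAlphaNoisy (MP_859019_mp): from the pair `(A, D)` to states

`Noise c σ` says `(1 - c) σ_x ≤ (1 + c) σ_(1-x)` for `x = 0, 1`.
-/

set_option autoImplicit false

open scoped Kronecker ComplexOrder

namespace Pool.Agent.Lib_helper4.AAN

open Matrix Pool.Agent.Lib_helper98.Renyi

/-- `(1 - c) σ_x ≤ (1 + c) σ_(1-x)` for `x = 0, 1` (order of positive semidefinite matrices). -/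
def Noise {b : Type*} (c : ℝ) (σ : Fin 2 → Matrix b b ℂ) : Prop :=
  ∀ x : Fin 2, (((1 + c : ℝ) : ℂ) • σ (1 - x) - ((1 - c : ℝ) : ℂ) • σ x).PosSemidef

/-- `N = α(α-1)/2`. -/
noncomputable def nn (α : ℝ) : ℝ := α * (α - 1) / 2

/-- `κ = 2^(α-1) - 1`. -/
noncomputable def kp (α : ℝ) : ℝ := (2 : ℝ) ^ (α - 1) - 1

/-- `h(c) = N + c (κ - N)`. -/
noncomputable def hh (α c : ℝ) : ℝ := nn α + c * (kp α - nn α)

section one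

variable {b : Type*} [Fintype b] [DecidableEq b]

/-- Every pair of density operators is `Noise 1`. -/
theorem noise_one {σ : Fin 2 → Matrix b b ℂ} (h : ∀ x, IsDensity (σ x)) : Noise 1 σ := by
  intro x
  have h2 : (0 : ℂ) ≤ ((1 + 1 : ℝ) : ℂ) := by
    exact_mod_cast (by norm_num : (0 : ℝ) ≤ 1 + 1)
  have := (h (1 - x)).1.smul h2
  simpa using this

theorem smul_Aop_add_Dop {σ : Fin 2 → Matrix b b ℂ} (h : ∀ x, IsDensity (σ x)) {α : ℝ}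
    (hα : 0 < α) (c : ℝ) :
    (c : ℂ) • Aop α σ + Dop α σ =
      mpow (rhoOf σ) ((1 - α) / (2 * α)) *
        ((1 / 2 : ℂ) • (((1 + c : ℝ) : ℂ) • σ 0 - ((1 - c : ℝ) : ℂ) • σ 1)) *
        mpow (rhoOf σ) ((1 - α) / (2 * α)) := by
  have e : (1 / 2 : ℂ) • (((1 + c : ℝ) : ℂ) • σ 0 - ((1 - c : ℝ) : ℂ) • σ 1) =
      (c : ℂ) • rhoOf σ + delOf σ := by
    ext k l
    simp [rhoOf, delOf]
    ring
  rw [e, ← sandwich_rho h hα, Dop, Matrix.mul_add, Matrix.add_mul, Matrix.mul_smul,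
    Matrix.smul_mul]

theorem smul_Aop_sub_Dop {σ : Fin 2 → Matrix b b ℂ} (h : ∀ x, IsDensity (σ x)) {α : ℝ}
    (hα : 0 < α) (c : ℝ) :
    (c : ℂ) • Aop α σ - Dop α σ =
      mpow (rhoOf σ) ((1 - α) / (2 * α)) *
        ((1 / 2 : ℂ) • (((1 + c : ℝ) : ℂ) • σ 1 - ((1 - c : ℝ) : ℂ) • σ 0)) *
        mpow (rhoOf σ) ((1 - α) / (2 * α)) := by
  have e : (1 / 2 : ℂ) • (((1 + c : ℝ) : ℂ) • σ 1 - ((1 - c : ℝ) : ℂ) • σ 0) =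
      (c : ℂ) • rhoOf σ - delOf σ := by
    ext k l
    simp [rhoOf, delOf]
    ring
  rw [e, ← sandwich_rho h hα, Dop, Matrix.mul_sub, Matrix.sub_mul, Matrix.mul_smul,
    Matrix.smul_mul]

/-- Noise gives `-cA ≤ D ≤ cA`. -/
theorem noise_add {σ : Fin 2 → Matrix b b ℂ} (h : ∀ x, IsDensity (σ x)) {α : ℝ}
    (hα : 0 < α) {c : ℝ} (hc : Noise c σ) : ((c : ℂ) • Aop α σ + Dop α σ).PosSemidef := by
  rw [smul_Aop_add_Dop h hα]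
  have h1 := hc 1
  simp only [sub_self] at h1
  exact sandwich_posSemidef (rhoOf_posSemidef h) (posSemidef_half_smul h1) _

theorem noise_sub {σ : Fin 2 → Matrix b b ℂ} (h : ∀ x, IsDensity (σ x)) {α : ℝ}
    (hα : 0 < α) {c : ℝ} (hc : Noise c σ) : ((c : ℂ) • Aop α σ - Dop α σ).PosSemidef := by
  rw [smul_Aop_sub_Dop h hα]
  have h1 := hc 0
  simp only [sub_zero] at h1
  exact sandwich_posSemidef (rhoOf_posSemidef h) (posSemidef_half_smul h1) _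

end one

section two

variable {b₁ b₂ : Type*} [Fintype b₁] [DecidableEq b₁] [Fintype b₂] [DecidableEq b₂]

/-- `K_α` of the output of the CNOT. -/
theorem Kof_Hsum {σ₁ : Fin 2 → Matrix b₁ b₁ ℂ} {σ₂ : Fin 2 → Matrix b₂ b₂ ℂ}
    (h₁ : ∀ x, IsDensity (σ₁ x)) (h₂ : ∀ x, IsDensity (σ₂ x)) {α : ℝ} (hα : 0 < α)
    (hne : α ≠ 1) :
    Kof α (Hsum α σ₁ σ₂) = 2 ^ (1 - α) *
      (1 + Gfun α (Aop α σ₁ ⊗ₖ Aop α σ₂) (Dop α σ₁ ⊗ₖ Dop α σ₂)) := by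
  rw [Hsum, traceMid_tau, Kof_condH (isDensity_sumState h₁ h₂) hα hne, Aop_sumState h₁ h₂,
    Dop_sumState h₁ h₂]

theorem delta_kp {α : ℝ} : (1 : ℝ) - 2 ^ (1 - α) = 2 ^ (1 - α) * kp α := by
  have h : (2 : ℝ) ^ (1 - α) * 2 ^ (α - 1) = 1 := by
    rw [← Real.rpow_add (by norm_num)]
    norm_num
  rw [kp, mul_sub, h, mul_one]

/-- The bound in terms of `K_α`, from the matrix inequality. -/
theorem K_bound {σ₁ : Fin 2 → Matrix b₁ b₁ ℂ} {σ₂ : Fin 2 → Matrix b₂ b₂ ℂ}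
    (h₁ : ∀ x, IsDensity (σ₁ x)) (h₂ : ∀ x, IsDensity (σ₂ x)) {α : ℝ} (hα : 1 < α)
    {H : ℝ} (hH : 0 < H)
    (key : nn α * (Gfun α (Aop α σ₁) (Dop α σ₁) * Gfun α (Aop α σ₂) (Dop α σ₂)) ≤
      H * Gfun α (Aop α σ₁ ⊗ₖ Aop α σ₂) (Dop α σ₁ ⊗ₖ Dop α σ₂)) :
    nn α * kp α / H *
        ((Kof α (condH α (cqState σ₁)) - 2 ^ (1 - α)) *
          (Kof α (condH α (cqState σ₂)) - 2 ^ (1 - α)) / (1 - 2 ^ (1 - α))) ≤
      Kof α (Hsum α σ₁ σ₂) - 2 ^ (1 - α) := by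
  have hα0 : 0 < α := by linarith
  rw [Kof_Hsum h₁ h₂ hα0 hα.ne', Kof_condH h₁ hα0 hα.ne', Kof_condH h₂ hα0 hα.ne', delta_kp]
  have hd : 0 < (2 : ℝ) ^ (1 - α) := Real.rpow_pos_of_pos (by norm_num) _
  have hk : 0 < kp α := by
    have : 1 < (2 : ℝ) ^ (α - 1) := Real.one_lt_rpow (by norm_num) (by linarith)
    rw [kp]; linarith
  generalize (2 : ℝ) ^ (1 - α) = d at *
  generalize Gfun α (Aop α σ₁ ⊗ₖ Aop α σ₂) (Dop α σ₁ ⊗ₖ Dop α σ₂) = g at *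
  generalize Gfun α (Aop α σ₁) (Dop α σ₁) = g₁ at *
  generalize Gfun α (Aop α σ₂) (Dop α σ₂) = g₂ at *
  have e : nn α * kp α / H * ((d * (1 + g₁) - d) * (d * (1 + g₂) - d) / (d * kp α)) =
      d * (nn α * (g₁ * g₂)) / H := by
    field_simp
    ring
  rw [e, div_le_iff₀ hH]
  have := mul_le_mul_of_nonneg_left key hd.le
  nlinarith [this]

/-- Q1 itself when `H ≤ N κ`. -/
theorem Hsum_le {σ₁ : Fin 2 → Matrix b₁ b₁ ℂ} {σ₂ : Fin 2 → Matrix b₂ b₂ ℂ}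
    (h₁ : ∀ x, IsDensity (σ₁ x)) (h₂ : ∀ x, IsDensity (σ₂ x)) {α : ℝ} (hα : 1 < α)
    {H : ℝ} (hHN : H ≤ nn α * kp α)
    (hG₁ : 0 ≤ Gfun α (Aop α σ₁) (Dop α σ₁)) (hG₂ : 0 ≤ Gfun α (Aop α σ₂) (Dop α σ₂))
    (hG : 0 ≤ Gfun α (Aop α σ₁ ⊗ₖ Aop α σ₂) (Dop α σ₁ ⊗ₖ Dop α σ₂))
    (key : nn α * (Gfun α (Aop α σ₁) (Dop α σ₁) * Gfun α (Aop α σ₂) (Dop α σ₂)) ≤
      H * Gfun α (Aop α σ₁ ⊗ₖ Aop α σ₂) (Dop α σ₁ ⊗ₖ Dop α σ₂)) :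
    Hsum α σ₁ σ₂ ≤ Fval α σ₁ σ₂ := by
  refine Hsum_le_Fval_of_one_lt h₁ h₂ hα hG₁ hG₂ ?_
  have hn : 0 < nn α := by
    rw [nn]; nlinarith
  have h1 : nn α * (Gfun α (Aop α σ₁) (Dop α σ₁) * Gfun α (Aop α σ₂) (Dop α σ₂)) ≤
      nn α * (kp α * Gfun α (Aop α σ₁ ⊗ₖ Aop α σ₂) (Dop α σ₁ ⊗ₖ Dop α σ₂)) := by
    refine key.trans ?_
    have := mul_le_mul_of_nonneg_right hHN hG
    linarith [this]
  exact le_of_mul_le_mul_left h1 hn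

end two

end Pool.Agent.Lib_helper4.AAN
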